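import Pool.Graph.R_seed8.Helper102.SubFinal

set_option autoImplicit false

namespace Pool.Agent.KS6_77.SubN

open Set Topology Cardinal
open Pool.Agent.Helper102.Ladder Pool.Agent.Helper102.IdxC Pool.Agent.Helper102.CantorBig
open Pool.Agent.Helper102.LSpace Pool.Agent.Helper102.PSpace Pool.Agent.Helper102.XSpace
open Pool.Agent.Helper102.Cover Pool.Agent.Helper102.CoverMain Pool.Agent.Helper102.SC
open Pool.Agent.Helper102.SubFinal

abbrev XX : Type := Pool.Agent.Helper102.XSpace.X

/-- the space is not submeta-Lindelöf -/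
theorem not_sml : ∃ (ι : Type) (U : ι → Set XX), (∀ i, IsOpen (U i)) ∧ (⋃ i, U i) = Set.univ ∧
    ¬ ∃ V : ℕ → Set (Set XX), (∀ n, (∀ W ∈ V n, IsOpen W ∧ ∃ i, W ⊆ U i) ∧
      ∀ x, ∃ W ∈ V n, x ∈ W) ∧ ∀ x, ∃ n, {W | W ∈ V n ∧ x ∈ W}.Countable := by
  refine ⟨ℕ ⊕ (I ⊕ I), fun q => Sum.elim (fun n => {nu n}) (fun j => B lad j 0) q, ?_, ?_, ?_⟩
  · rintro (n | j)
    · exact isOpen_singleton_nt n
    · exact isOpen_B j 0
  · rw [eq_univ_iff_forall]
    intro p
    rcases cases' p with ⟨n, rfl⟩ | ⟨j, rfl⟩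
    · exact mem_iUnion.2 ⟨Sum.inl n, rfl⟩
    · exact mem_iUnion.2 ⟨Sum.inr j, self_mem _ _⟩
  · rintro ⟨V, hV, hpc⟩
    have hcW : ∀ n, ∀ W ∈ V n, {α : I | ell α ∈ W}.Countable := by
      intro n W hW
      obtain ⟨-, i, hi⟩ := (hV n).1 W hW
      have h1 : W.Countable := by
        refine Set.Countable.mono hi ?_
        rcases i with m | j
        · exact countable_singleton _
        · exact countable_B goodX j 0
      exact h1.preimage_of_injOn (fun a _ b _ h => ell_inj h)
    have key : ∀ n, {α : I | {W | W ∈ V n ∧ ell α ∈ W}.Countable}.Countable := by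
      intro n
      set Xn : Set I := {α : I | {W | W ∈ V n ∧ ell α ∈ W}.Countable} with hXn
      let P : Set (Set I) := {D | D ⊆ Xn ∧ ∀ α ∈ D, ∀ β ∈ D, ∀ W ∈ V n, ell α ∈ W → ell β ∈ W →
        α = β}
      obtain ⟨D, hD⟩ := zorn_subset P (by
        intro c hc hch
        refine ⟨⋃₀ c, ⟨sUnion_subset fun s hs => (hc hs).1, ?_⟩, fun s hs => subset_sUnion_of_mem hs⟩
        rintro α ⟨s, hs, hα⟩ β ⟨t, ht, hβ⟩ W hW h1 h2
        rcases hch.total hs ht with h | h
        · exact (hc ht).2 α (h hα) β hβ W hW h1 h2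
        · exact (hc hs).2 α hα β (h hβ) W hW h1 h2)
      have hDP : D ∈ P := hD.prop
      have hDc : D.Countable := by
        refine extent D fun p => ?_
        obtain ⟨W, hW, hp⟩ := (hV n).2 p
        refine ⟨W, ((hV n).1 W hW).1.mem_nhds hp, Set.Subsingleton.finite ?_⟩
        rintro α ⟨hα, hαW⟩ β ⟨hβ, hβW⟩
        exact hDP.2 α hα β hβ W hW hαW hβW
      have hsub : Xn ⊆ ⋃ β ∈ D, ⋃ W ∈ {W | W ∈ V n ∧ ell β ∈ W}, {α : I | ell α ∈ W} := by
        intro α hα
        by_cases hex : ∃ β ∈ D, ∃ W ∈ V n, ell β ∈ W ∧ ell α ∈ W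
        · obtain ⟨β, hβ, W, hW, h1, h2⟩ := hex
          exact mem_biUnion hβ (mem_biUnion (show W ∈ {W | W ∈ V n ∧ ell β ∈ W} from ⟨hW, h1⟩) h2)
        · exfalso
          push Not at hex
          have hins : insert α D ∈ P := by
            refine ⟨insert_subset hα hDP.1, ?_⟩
            rintro a (rfl | ha) b (rfl | hb) W hW h1 h2
            · rfl
            · exact absurd h1 (hex b hb W hW h2)
            · exact absurd h2 (hex a ha W hW h1)
            · exact hDP.2 a ha b hb W hW h1 h2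
          have hαD : α ∈ D := hD.le_of_ge hins (subset_insert α D) (mem_insert α D)
          obtain ⟨W, hW, hαW⟩ := (hV n).2 (ell α)
          exact hex α hαD W hW hαW hαW
      refine (hDc.biUnion fun β hβ => ?_).mono hsub
      have hβc : {W | W ∈ V n ∧ ell β ∈ W}.Countable := hDP.1 hβ
      exact hβc.biUnion fun W hW => hcW n W hW.1
    refine not_countable_I ((countable_iUnion key).mono fun α _ => ?_)
    obtain ⟨n, hn⟩ := hpc (ell α)
    exact mem_iUnion.2 ⟨n, hn⟩

theorem loc_countable (p : XX) : ∃ W : Set XX, IsOpen W ∧ p ∈ W ∧ W.Countable := by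
  rcases cases' p with ⟨n, rfl⟩ | ⟨j, rfl⟩
  · exact ⟨{nt lad n}, isOpen_singleton_nt n, rfl, countable_singleton _⟩
  · exact ⟨B lad j 0, isOpen_B j 0, self_mem _ _, countable_B goodX j 0⟩

theorem not_countable_X : ¬ (univ : Set XX).Countable := fun h =>
  not_countable_I ((h.preimage_of_injOn (f := ell) (fun a _ b _ h => ell_inj h)).mono
    fun _ _ => trivial)

theorem not_compact : ¬ CompactSpace XX := by
  intro hc
  choose W hW hp hWc using loc_countable
  obtain ⟨s, hs⟩ := hc.isCompact_univ.elim_finite_subcover W hW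
    (fun p _ => mem_iUnion.2 ⟨p, hp p⟩)
  exact not_countable_X ((s.countable_toSet.biUnion fun p _ => hWc p).mono hs)

theorem remainder : ∃ p : StoneCech XX, (range (stoneCechUnit : XX → StoneCech XX))ᶜ = {p} := by
  have hne : ((range (stoneCechUnit : XX → StoneCech XX))ᶜ).Nonempty := by
    rw [nonempty_iff_ne_empty]
    intro he
    rw [compl_empty_iff] at he
    apply not_compact
    have hce : IsClosedEmbedding (stoneCechUnit : XX → StoneCech XX) :=
      ⟨isEmbedding_stoneCechUnit, by rw [he]; exact isClosed_univ⟩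
    exact hce.compactSpace
  obtain ⟨p, hp⟩ := hne
  refine ⟨p, Subset.antisymm (fun q hq => ?_) (singleton_subset_iff.2 hp)⟩
  exact g_inj ((g_inf hq).trans (g_inf hp).symm)

theorem first_countable : FirstCountableTopology XX := by
  refine ⟨fun p => ?_⟩
  rcases cases' p with ⟨n, rfl⟩ | ⟨j, rfl⟩
  · have h1 : 𝓝 (nt lad n) = pure (nt lad n) :=
      isOpen_singleton_iff_nhds_eq_pure _ |>.1 (isOpen_singleton_nt n)
    rw [h1]
    infer_instance
  · exact (nhds_pt j).isCountablyGenerated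

theorem separable : TopologicalSpace.SeparableSpace XX :=
  ⟨range nu, countable_range _, fun p => dense_nu p⟩

end Pool.Agent.KS6_77.SubN
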